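import Pool.Agent.Helper77.KT.Basic
import Pool.Agent.Helper2.MK.Data

/-!
# Torsion free Kleinian data as compact affine manifolds
-/

set_option autoImplicit false

open Set Module

namespace Pool.Agent.Helper75.K4

open Pool.Agent.Helper77 Pool.Agent.Helper2.MK

variable {V : Type*} [NormedAddCommGroup V] [NormedSpace ℝ V] [FiniteDimensional ℝ V]
  {Γ : Subgroup (V ≃ᵃ[ℝ] V)} {Ω : Set V}

/-- The action of `Γ` on `Ω`. -/
@[reducible] def act (H : KT.Klein Γ Ω) : MulAction Γ Ω where
  smul := fun γ x => ⟨(γ : V ≃ᵃ[ℝ] V) x, H.inv _ γ.2 _ x.2⟩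
  one_smul := fun _ => rfl
  mul_smul := fun _ _ _ => rfl

/-- The compact affine manifold given by torsion free Kleinian data. -/
theorem exists_developing (H : KT.Klein Γ Ω)
    (htf : ∀ γ ∈ Γ, ∀ k : ℕ, 0 < k → γ ^ k = 1 → γ = 1) :
    letI := act H
    ∃ M : AffineDeveloping V Γ Ω, M.dev = Subtype.val ∧ ∀ γ : Γ, M.hol γ = γ := by
  let _ := act H
  have hsmul : ∀ (γ : Γ) (x : Ω), ((γ • x : Ω) : V) = (γ : V ≃ᵃ[ℝ] V) x := fun _ _ => rfl
  -- proper
  have hproper : ∀ K : Set Ω, IsCompact K →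
      {g : Γ | (((fun y => g • y) '' K) ∩ K).Nonempty}.Finite := by
    intro K hK
    have h1 := H.proper ((↑) '' K) (by rintro _ ⟨x, _, rfl⟩; exact x.2)
      (hK.image continuous_subtype_val)
    refine Set.Finite.of_finite_image (f := ((↑) : Γ → (V ≃ᵃ[ℝ] V))) (h1.subset ?_)
      Subtype.val_injective.injOn
    rintro _ ⟨g, ⟨_, ⟨y, hy, rfl⟩, hy'⟩, rfl⟩
    exact ⟨g.2, (g : V ≃ᵃ[ℝ] V) y, ⟨y, ⟨y, hy, rfl⟩, rfl⟩, ⟨_, hy', rfl⟩⟩
  have hfree : ∀ (g : Γ) (y : Ω), g • y = y → g = 1 := by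
    intro g y hgy
    have h1 := hproper {y} isCompact_singleton
    have h2 : ∀ k : ℕ, g ^ k • y = y := by
      intro k
      induction k with
      | zero => rw [pow_zero, one_smul]
      | succ k ih => rw [pow_succ, mul_smul, hgy, ih]
    have h4 : (range fun k : ℕ => g ^ k).Finite := by
      refine h1.subset ?_
      rintro _ ⟨k, rfl⟩
      exact ⟨y, ⟨y, rfl, h2 k⟩, rfl⟩
    have h5 : ¬ Function.Injective fun k : ℕ => g ^ k := by
      intro hinj
      exact infinite_range_of_injective hinj h4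
    have h6 : IsOfFinOrder g := by
      by_contra h7
      exact h5 (injective_pow_iff_not_isOfFinOrder.2 h7)
    obtain ⟨k, hk, hgk⟩ := isOfFinOrder_iff_pow_eq_one.1 h6
    refine Subtype.ext (htf g g.2 k hk ?_)
    rw [← Subgroup.coe_pow, hgk]
    rfl
  have hcoc : ∃ K : Set Ω, IsCompact K ∧ ∀ y, ∃ g : Γ, g • y ∈ K := by
    obtain ⟨K, hKΩ, hK, hcov⟩ := H.cocompact
    refine ⟨(↑) ⁻¹' K, ?_, ?_⟩
    · refine Topology.IsInducing.subtypeVal.isCompact_preimage' hK ?_
      rw [Subtype.range_coe]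
      exact hKΩ
    · intro y
      obtain ⟨γ, hγ, hγy⟩ := hcov y y.2
      exact ⟨⟨γ, hγ⟩, hγy⟩
  exact ⟨{
      dev := (↑)
      hol := fun γ => γ
      dev_local := H.isOpen.isOpenEmbedding_subtypeVal.isLocalHomeomorph
      hol_mul := fun _ _ _ => rfl
      dev_smul := fun _ _ => rfl
      volume_hol := fun γ => H.vol _ γ.2
      covering :=
        { continuous_smul := by
            intro g
            refine Continuous.subtype_mk ?_ _
            exact (AffineEquiv.continuous_of_finiteDimensional _).comp continuous_subtype_val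
          free := hfree
          proper := hproper
          cocompact := hcoc } }, rfl, fun _ => rfl⟩

end Pool.Agent.Helper75.K4
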