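import Pool.Agent.Helper75.K4.Dev
import Pool.Agent.Helper77.K4.Defs
import Pool.Agent.SOL.Main

/-!
# K4R, module M10: virtually solvable Kleinian groups
-/

set_option autoImplicit false

open Set Module

namespace Pool.Agent.Helper75.K4

open Pool.Agent.Helper77 Pool.Agent.Helper77.K4 Pool.Agent.Helper2.MK

theorem map_derivedSeries_le {G : Type*} [Group G] (K : Subgroup G) (k : ℕ) :
    (derivedSeries K k).map K.subtype ≤ dser K k := by
  induction k with
  | zero =>
    rw [derivedSeries_zero, ← MonoidHom.range_eq_map, Subgroup.range_subtype]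
    exact le_rfl
  | succ k ih =>
    rw [derivedSeries_succ, Subgroup.map_commutator]
    exact Subgroup.commutator_mono ih ih

theorem isSolvable_of_dser {G : Type*} [Group G] {K : Subgroup G} {k : ℕ} (h : dser K k = ⊥) :
    Group.IsSolvable K := by
  refine ⟨⟨k, ?_⟩⟩
  have h1 := map_derivedSeries_le K k
  rw [h, le_bot_iff, Subgroup.map_eq_bot_iff_of_injective _ K.subtype_injective] at h1
  exact h1

variable {V : Type*} [NormedAddCommGroup V] [NormedSpace ℝ V] [FiniteDimensional ℝ V]

/-- M10: torsion free Kleinian data with a virtually solvable group. -/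
theorem m10 {Γ : Subgroup (V ≃ᵃ[ℝ] V)} {Ω : Set V} (H : KT.Klein Γ Ω)
    (htf : ∀ γ ∈ Γ, ∀ k : ℕ, 0 < k → γ ^ k = 1 → γ = 1)
    (hsol : ∃ K : Subgroup Γ, K.FiniteIndex ∧ ∃ k, dser K k = ⊥) : Ω = univ := by
  let _ := act H
  have : ConnectedSpace Ω := isConnected_iff_connectedSpace.1 H.conn
  obtain ⟨M, hdev, hhol⟩ := exists_developing H htf
  obtain ⟨K, hK, k, hk⟩ := hsol
  have hKs : Group.IsSolvable K := isSolvable_of_dser hk
  have hs : Group.IsSolvable (K.map M.holHom) :=
    Group.isSolvable_of_surjective (MonoidHom.subgroupMap_surjective M.holHom K)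
  have hinj : Function.Injective M.dev := by
    rw [hdev]
    exact Subtype.val_injective
  obtain ⟨e, he⟩ := Pool.Agent.SOL.complete_of_solvable M ⟨K, hK, hs⟩
    ⟨univ, isOpen_univ, by
      rw [univ_inter, hdev, Subtype.range_coe]
      exact H.conn.nonempty, fun v _ =>
      (Set.Subsingleton.finite fun a ha b hb => hinj (ha.trans hb.symm))⟩
  rw [eq_univ_iff_forall]
  intro x
  have h1 : ((e.symm x : Ω) : V) = x := by
    have h2 : e (e.symm x) = M.dev (e.symm x) := by rw [he]
    rw [e.apply_symm_apply, hdev] at h2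
    exact h2.symm
  rw [← h1]
  exact (e.symm x).2

end Pool.Agent.Helper75.K4
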