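import Pool.Agent.Helper75.K4.Dev
import Pool.Agent.Helper4.MKT.Local

/-!
# K4R, module M2: no proper invariant affine subspace
-/

set_option autoImplicit false

open Set Module

namespace Pool.Agent.Helper75.K4

open Pool.Agent.Helper77 Pool.Agent.Helper2.MK

variable {V : Type*} [NormedAddCommGroup V] [NormedSpace ℝ V] [FiniteDimensional ℝ V]

/-- M2: torsion free Kleinian data have no proper nonempty invariant affine subspace. -/
theorem m2 {Γ : Subgroup (V ≃ᵃ[ℝ] V)} {Ω : Set V} (H : KT.Klein Γ Ω)
    (htf : ∀ γ ∈ Γ, ∀ k : ℕ, 0 < k → γ ^ k = 1 → γ = 1) (Z : AffineSubspace ℝ V)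
    (hZ : (Z : Set V).Nonempty) (hinv : ∀ γ ∈ Γ, ∀ x ∈ Z, γ x ∈ Z) : Z = ⊤ := by
  let _ := act H
  obtain ⟨M, hdev, hhol⟩ := exists_developing H htf
  obtain ⟨z, hz⟩ := hZ
  obtain ⟨p, hp⟩ := LinearMap.exists_leftInverse_of_injective Z.direction.subtype
    Z.direction.ker_subtype
  have hpid : ∀ v (hv : v ∈ Z.direction), ((p v : Z.direction) : V) = v := by
    intro v hv
    have h1 := congrArg (fun f : Z.direction →ₗ[ℝ] Z.direction => ((f ⟨v, hv⟩ : Z.direction) : V)) hp
    exact h1
  let r : V → V := fun x => ((p (x - z) : Z.direction) : V) + z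
  have hr : LocallyLipschitz r := by
    have h1 : ContDiff ℝ 1 r := by
      have h2 : ContDiff ℝ 1 (fun x : V =>
          ((Z.direction.subtype ∘ₗ p : V →ₗ[ℝ] V).toContinuousLinearMap) (x - z)) :=
        (ContinuousLinearMap.contDiff _).comp (contDiff_id.sub contDiff_const)
      exact h2.add contDiff_const
    exact h1.locallyLipschitz
  have hrZ : ∀ x, r x ∈ (Z : Set V) := by
    intro x
    have := AffineSubspace.vadd_mem_of_mem_direction (p (x - z)).2 hz
    exact this
  have hid : ∀ x ∈ (Z : Set V), r x = x := by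
    intro x hx
    have h1 : x - z ∈ Z.direction := AffineSubspace.vsub_mem_direction hx hz
    change ((p (x - z) : Z.direction) : V) + z = x
    rw [hpid _ h1, sub_add_cancel]
  have : ContinuousConstSMul Γ Ω := ⟨M.covering.continuous_smul⟩
  let _ : MeasurableSpace V := borel V
  have : BorelSpace V := ⟨rfl⟩
  have h1 : range M.dev ⊆ (Z : Set V) :=
    Pool.Agent.Helper4.MKT.range_subset_retract (h := M.holHom)
      (fun K hK => M.covering.proper K hK) M.covering.free M.dev_local M.dev_smul M.volume_hol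
      M.covering.cocompact
      (fun g x hx => by
        change M.hol g x ∈ (Z : Set V)
        rw [hhol]
        exact hinv g g.2 x hx) hr hrZ hid
  rw [hdev, Subtype.range_coe] at h1
  have h2 : affineSpan ℝ Ω = ⊤ := H.isOpen.affineSpan_eq_top H.conn.nonempty
  rw [eq_top_iff, ← h2, affineSpan_le]
  exact h1

end Pool.Agent.Helper75.K4
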